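import Mathlib

/-!
# Almost-invariant Lipschitz functions need not be close to invariant ones

We disprove Q1 (Kazhdan–Yom Din in the Lipschitz-free setting) in the strongest possible form:
no matter how small `ε > 0` is, there are a metric space `M`, a group `G` acting on `M` by
isometries and an `ε`-invariant `f ∈ Lip₀(M)` with `L(f) = 1` whose distance to every invariant
function is at least `1` (the distance to the invariant function `0`).

The example: `G = M` is the group of (lifts of) orientation preserving circle homeomorphisms, `f`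
is the translation number (a homogeneous quasimorphism) and
`d(x, y) = |f(x⁻¹ y)| + C` for `x ≠ y`.
-/

open CircleDeg1Lift

namespace Pool.Agent.Results.MP_35e3b8_an.QuasimorphismCounterexample

/-- The Lipschitz constant `L(f)` of `f`, as an element of `[0, ∞]`: the infimum of all `K` such
that `f` is `K`-Lipschitz (so it is `∞` if `f` is not Lipschitz). -/
noncomputable def lipConst {M : Type*} [MetricSpace M] (f : M → ℝ) : ENNReal :=
  ⨅ (K : NNReal) (_ : LipschitzWith K f), (K : ENNReal)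

/-- `f ∈ Lip₀(M)`: `f` is Lipschitz and vanishes at the base point `o`. -/
def MemLip0 {M : Type*} [MetricSpace M] (o : M) (f : M → ℝ) : Prop :=
  f o = 0 ∧ ∃ K : NNReal, LipschitzWith K f

/-- The action of `G` on `Lip₀(M)`: `(g f)(x) = f(g⁻¹ x) - f(g⁻¹ o)`. -/
def act {M G : Type*} [Group G] [MulAction G M] (o : M) (g : G) (f : M → ℝ) : M → ℝ :=
  fun x => f (g⁻¹ • x) - f (g⁻¹ • o)

/-- `f` is invariant: `g f = f` for all `g`. -/
def IsInvariant {M G : Type*} [Group G] [MulAction G M] (o : M) (f : M → ℝ) : Prop :=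
  ∀ g : G, act o g f = f

/-- `f` is `ε`-invariant: `‖g f - f‖ ≤ ε` for all `g`. -/
def IsEpsInvariant {M G : Type*} [MetricSpace M] [Group G] [MulAction G M] (o : M) (ε : ℝ)
    (f : M → ℝ) : Prop :=
  ∀ g : G, lipConst (act o g f - f) ≤ ENNReal.ofReal ε

/-- The group of homeomorphisms of the line commuting with `x ↦ x + 1`. -/
abbrev H : Type := CircleDeg1Liftˣ

/-- translation number as a function on the group -/
noncomputable def t (g : H) : ℝ := translationNumber (g : CircleDeg1Lift)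

lemma t_one : t 1 = 0 := by simp [t]

lemma t_inv (g : H) : t g⁻¹ = - t g := translationNumber_units_inv g

lemma t_pow (g : H) (n : ℕ) : t (g ^ n) = n * t g := by
  simp [t]

lemma t_mul (g h : H) : |t (g * h) - t g - t h| ≤ 4 := by
  have h1 := dist_map_zero_translationNumber_le ((g * h : H) : CircleDeg1Lift)
  have h2 := dist_map_zero_translationNumber_le (g : CircleDeg1Lift)
  have h3 := dist_map_zero_translationNumber_le (h : CircleDeg1Lift)
  have h4 := dist_map_map_zero_lt (g : CircleDeg1Lift) (h : CircleDeg1Lift)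
  rw [Real.dist_eq] at h1 h2 h3 h4
  have h5 : ((g * h : H) : CircleDeg1Lift) 0 = (g : CircleDeg1Lift) ((h : CircleDeg1Lift) 0) := by
    simp
  rw [h5] at h1
  unfold t
  rw [abs_le] at *
  rw [abs_lt] at h4
  constructor <;> linarith [h1.1, h1.2, h2.1, h2.2, h3.1, h3.2, h4.1, h4.2]

/-- the left-invariant distance -/
noncomputable def dst (C : ℝ) (x y : H) : ℝ :=
  open Classical in if x = y then 0 else |t (x⁻¹ * y)| + C

lemma dst_self (C : ℝ) (x : H) : dst C x x = 0 := by simp [dst]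

lemma dst_of_ne (C : ℝ) {x y : H} (h : x ≠ y) : dst C x y = |t (x⁻¹ * y)| + C := by
  simp [dst, h]

lemma dst_comm (C : ℝ) (x y : H) : dst C x y = dst C y x := by
  by_cases h : x = y
  · subst h; rfl
  · rw [dst_of_ne C h, dst_of_ne C (Ne.symm h)]
    have : y⁻¹ * x = (x⁻¹ * y)⁻¹ := by group
    rw [this, t_inv, abs_neg]

lemma dst_nonneg {C : ℝ} (hC : 4 ≤ C) (x y : H) : 0 ≤ dst C x y := by
  by_cases h : x = y
  · subst h; simp [dst]
  · rw [dst_of_ne C h]; positivity

lemma dst_triangle {C : ℝ} (hC : 4 ≤ C) (x y z : H) : dst C x z ≤ dst C x y + dst C y z := by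
  by_cases hxz : x = z
  · subst hxz
    rw [dst_self]
    exact add_nonneg (dst_nonneg hC _ _) (dst_nonneg hC _ _)
  by_cases hxy : x = y
  · subst hxy; simp [dst_self]
  by_cases hyz : y = z
  · subst hyz; simp [dst_self]
  rw [dst_of_ne C hxz, dst_of_ne C hxy, dst_of_ne C hyz]
  have h1 := t_mul (x⁻¹ * y) (y⁻¹ * z)
  have h2 : x⁻¹ * y * (y⁻¹ * z) = x⁻¹ * z := by group
  rw [h2] at h1
  have h3 : |t (x⁻¹ * z)| ≤ |t (x⁻¹ * z) - t (x⁻¹ * y) - t (y⁻¹ * z)| +
      |t (x⁻¹ * y)| + |t (y⁻¹ * z)| := by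
    have h4 := abs_add_three (t (x⁻¹ * z) - t (x⁻¹ * y) - t (y⁻¹ * z)) (t (x⁻¹ * y))
      (t (y⁻¹ * z))
    have h5 : (t (x⁻¹ * z) - t (x⁻¹ * y) - t (y⁻¹ * z)) + t (x⁻¹ * y) + t (y⁻¹ * z)
      = t (x⁻¹ * z) := by ring
    rwa [h5] at h4
  linarith

/-- the metric space structure on `H` -/
@[reducible] noncomputable def metric (C : ℝ) (hC : 4 ≤ C) : MetricSpace H where
  dist := dst C
  dist_self := dst_self C
  dist_comm := dst_comm C
  dist_triangle := dst_triangle hC
  eq_of_dist_eq_zero := by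
    intro x y h
    by_contra hne
    change dst C x y = 0 at h
    rw [dst_of_ne C hne] at h
    have := abs_nonneg (t (x⁻¹ * y))
    linarith

lemma dst_smul (C : ℝ) (g x y : H) : dst C (g * x) (g * y) = dst C x y := by
  by_cases h : x = y
  · subst h; simp [dst_self]
  · have h' : g * x ≠ g * y := fun h'' => h (mul_left_cancel h'')
    rw [dst_of_ne C h, dst_of_ne C h']
    congr 3
    group

/-- the underlying map of the auxiliary homeomorphism -/
noncomputable def sqFun (x : ℝ) : ℝ := ⌊x⌋ + Int.fract x ^ 2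

/-- the underlying map of the inverse of the auxiliary homeomorphism -/
noncomputable def sqrtFun (x : ℝ) : ℝ := ⌊x⌋ + √(Int.fract x)

lemma floorFun_mono {φ : ℝ → ℝ} (h0 : ∀ t, 0 ≤ t → t < 1 → 0 ≤ φ t)
    (h1 : ∀ t, 0 ≤ t → t < 1 → φ t < 1)
    (hm : ∀ s t, 0 ≤ s → s ≤ t → φ s ≤ φ t) :
    Monotone (fun x : ℝ => (⌊x⌋ : ℝ) + φ (Int.fract x)) := by
  intro x y hxy
  have hfl : ⌊x⌋ ≤ ⌊y⌋ := Int.floor_mono hxy
  rcases hfl.lt_or_eq with hlt | heq
  · have h2 : (⌊x⌋ : ℝ) + 1 ≤ ⌊y⌋ := by exact_mod_cast hlt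
    have h3 := h1 (Int.fract x) (Int.fract_nonneg x) (Int.fract_lt_one x)
    have h4 := h0 (Int.fract y) (Int.fract_nonneg y) (Int.fract_lt_one y)
    simp only
    linarith
  · have h5 : Int.fract x ≤ Int.fract y := by
      rw [Int.fract, Int.fract, heq]; linarith
    have := hm _ _ (Int.fract_nonneg x) h5
    simp only
    rw [heq]
    linarith

lemma sqFun_mono : Monotone sqFun := by
  apply floorFun_mono (φ := fun x => x ^ 2)
  · intro t h0 h1; positivity
  · intro t h0 h1; nlinarith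
  · intro s t hs hst; nlinarith

lemma sqrtFun_mono : Monotone sqrtFun := by
  apply floorFun_mono (φ := fun x => √x)
  · intro t h0 h1; positivity
  · intro t h0 h1
    rw [Real.sqrt_lt' one_pos]; simpa using h1
  · intro s t hs hst
    exact Real.sqrt_le_sqrt hst

lemma sqFun_add_one (x : ℝ) : sqFun (x + 1) = sqFun x + 1 := by
  simp only [sqFun, Int.floor_add_one, Int.fract_add_one]
  push_cast; ring

lemma sqrtFun_add_one (x : ℝ) : sqrtFun (x + 1) = sqrtFun x + 1 := by
  simp only [sqrtFun, Int.floor_add_one, Int.fract_add_one]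
  push_cast; ring

lemma sqFun_sqrtFun (x : ℝ) : sqFun (sqrtFun x) = x := by
  have h0 := Int.fract_nonneg x
  have h1 := Int.fract_lt_one x
  have hs0 : 0 ≤ √(Int.fract x) := Real.sqrt_nonneg _
  have hs1 : √(Int.fract x) < 1 := by
    rw [Real.sqrt_lt' one_pos]; simpa using h1
  have hf : ⌊sqrtFun x⌋ = ⌊x⌋ := by
    rw [Int.floor_eq_iff]; unfold sqrtFun
    constructor <;> linarith
  have hfr : Int.fract (sqrtFun x) = √(Int.fract x) := by
    rw [Int.fract, hf]; unfold sqrtFun; ring
  rw [sqFun, hf, hfr, Real.sq_sqrt h0]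
  exact Int.floor_add_fract x

lemma sqrtFun_sqFun (x : ℝ) : sqrtFun (sqFun x) = x := by
  have h0 := Int.fract_nonneg x
  have h1 := Int.fract_lt_one x
  have hs0 : 0 ≤ (Int.fract x) ^ 2 := by positivity
  have hs1 : (Int.fract x) ^ 2 < 1 := by nlinarith
  have hf : ⌊sqFun x⌋ = ⌊x⌋ := by
    rw [Int.floor_eq_iff]; unfold sqFun
    constructor <;> linarith
  have hfr : Int.fract (sqFun x) = (Int.fract x) ^ 2 := by
    rw [Int.fract, hf]; unfold sqFun; ring
  rw [sqrtFun, hf, hfr, Real.sqrt_sq h0]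
  exact Int.floor_add_fract x

/-- the auxiliary homeomorphism `n + s ↦ n + s ^ 2` (for `0 ≤ s < 1`) -/
noncomputable def sq : H where
  val := ⟨⟨sqFun, sqFun_mono⟩, sqFun_add_one⟩
  inv := ⟨⟨sqrtFun, sqrtFun_mono⟩, sqrtFun_add_one⟩
  val_inv := by
    ext x
    exact sqFun_sqrtFun x
  inv_val := by
    ext x
    exact sqrtFun_sqFun x

/-- translation by `1/4` to the left -/
noncomputable def tr : H := translate (Multiplicative.ofAdd (-(1/4) : ℝ))

lemma t_tr : t tr = -(1/4) := translationNumber_translate _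

lemma sq_zero : (sq : CircleDeg1Lift) 0 = 0 := by
  change sqFun 0 = 0
  simp [sqFun]

lemma sq_half : (sq : CircleDeg1Lift) (1/2) = 1/4 := by
  change sqFun (1/2) = 1/4
  have : ⌊(1/2 : ℝ)⌋ = 0 := by rw [Int.floor_eq_iff]; norm_num
  have h2 : Int.fract (1/2 : ℝ) = 1/2 := by rw [Int.fract, this]; norm_num
  rw [sqFun, this, h2]; norm_num

lemma t_sq : t sq = 0 := by
  have : (sq : CircleDeg1Lift) 0 = 0 + ((0 : ℤ) : ℝ) := by simp [sq_zero]
  have h := translationNumber_of_eq_add_int (sq : CircleDeg1Lift) this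
  simpa [t] using h

lemma t_sq_inv_tr : t (sq⁻¹ * tr) = 0 := by
  have h1 : (tr : CircleDeg1Lift) (1/2) = 1/4 := by
    have := CircleDeg1Lift.translate_apply (-(1/4)) (1/2)
    rw [tr, this]; norm_num
  have h2 : ((sq⁻¹ * tr : H) : CircleDeg1Lift) (1/2) = 1/2 + ((0 : ℤ) : ℝ) := by
    rw [Units.val_mul, CircleDeg1Lift.mul_apply, h1, ← sq_half, units_inv_apply_apply]
    simp
  have h := translationNumber_of_eq_add_int _ h2
  simpa [t] using h

/-- A homomorphism dominated by `K (|t| + C)` vanishes where `t` does. -/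
lemma hom_zero_of_t_zero (φ : H → ℝ) (hφ : ∀ x y, φ (x * y) = φ x + φ y) (K C : ℝ)
    (hK : ∀ x, |φ x| ≤ K * (|t x| + C)) (x : H) (hx : t x = 0) : φ x = 0 := by
  have hone : φ 1 = 0 := by
    have := hφ 1 1
    rw [mul_one] at this
    linarith
  have hpow : ∀ n : ℕ, φ (x ^ n) = n * φ x := by
    intro n
    induction n with
    | zero => simp [hone]
    | succ n ih => rw [pow_succ, hφ, ih]; push_cast; ring
  by_contra hne
  have hpos : 0 < |φ x| := abs_pos.mpr hne
  obtain ⟨n, hn⟩ := exists_nat_gt (K * C / |φ x|)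
  rw [div_lt_iff₀ hpos] at hn
  have h1 := hK (x ^ n)
  rw [hpow, t_pow, hx, abs_mul, Nat.abs_cast] at h1
  simp at h1
  linarith

lemma lip_ge_one {C : ℝ} (h : H → ℝ) (h1 : h 1 = 0) (hn : ∀ n : ℕ, h (tr ^ n) = - (n / 4))
    (K : ℝ) (hK : ∀ x y, |h x - h y| ≤ K * dst C x y) : 1 ≤ K := by
  by_contra hlt
  push Not at hlt
  obtain ⟨n, hn'⟩ := exists_nat_gt (max 1 (4 * (K * C) / (1 - K)))
  have hn1 : (1 : ℝ) < n := lt_of_le_of_lt (le_max_left _ _) hn'
  have hn2 := lt_of_le_of_lt (le_max_right _ _) hn'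
  have hKpos : 0 < 1 - K := by linarith
  rw [div_lt_iff₀ hKpos] at hn2
  have hne : tr ^ n ≠ 1 := by
    intro he
    have := t_pow tr n
    rw [he, t_one, t_tr] at this
    linarith
  have h2 := hK (tr ^ n) 1
  rw [hn, h1, dst_of_ne C hne] at h2
  have h3 : (tr ^ n)⁻¹ * (1 : H) = (tr ^ n)⁻¹ := by group
  rw [h3, t_inv, t_pow, t_tr] at h2
  have h4 : |-((n : ℝ) / 4) - 0| = n / 4 := by
    rw [sub_zero, abs_neg, abs_of_nonneg (by positivity)]
  have h5 : |-((n : ℝ) * -(1/4))| = n / 4 := by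
    rw [show -((n : ℝ) * -(1/4)) = n / 4 by ring, abs_of_nonneg (by positivity)]
  rw [h4, h5] at h2
  nlinarith

/-- **Main theorem.** For every `ε > 0` there are a pointed metric space `(M, o)`, a group `G`
acting on `M` by isometries, and an `ε`-invariant `f ∈ Lip₀(M)` with `L(f) = 1` such that every
invariant `f' ∈ Lip₀(M)` satisfies `‖f - f'‖ ≥ 1`. -/
theorem result (ε : ℝ) (hε : 0 < ε) :
    ∃ (M : Type) (_ : MetricSpace M) (o : M) (G : Type) (_ : Group G) (_ : MulAction G M)
      (_ : IsIsometricSMul G M) (f : M → ℝ),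
      MemLip0 o f ∧ lipConst f = 1 ∧ IsEpsInvariant (G := G) o ε f ∧
      ∀ f' : M → ℝ, MemLip0 o f' → IsInvariant (G := G) o f' → 1 ≤ lipConst (f - f') := by
  set C : ℝ := max 4 (8 / ε) with hCdef
  have hC : 4 ≤ C := le_max_left _ _
  have hC' : 8 ≤ ε * C := by
    have : 8 / ε ≤ C := le_max_right _ _
    rw [div_le_iff₀ hε] at this
    linarith
  let _ : MetricSpace H := metric C hC
  have hdist : ∀ x y : H, dist x y = dst C x y := fun _ _ => rfl
  have hiso : IsIsometricSMul H H := by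
    constructor
    intro g
    rw [isometry_iff_dist_eq]
    intro x y
    exact dst_smul C g x y
  have hlip : ∀ (K : NNReal) (h : H → ℝ), LipschitzWith K h ↔
      ∀ x y, |h x - h y| ≤ K * dst C x y := by
    intro K h
    rw [lipschitzWith_iff_dist_le_mul]
    rfl
  have hlip1 : LipschitzWith 1 t := by
    rw [hlip]
    intro x y
    by_cases hxy : x = y
    · subst hxy; simp [dst_self]
    rw [dst_of_ne C hxy]
    have h1 := t_mul x (x⁻¹ * y)
    have h2 : x * (x⁻¹ * y) = y := by group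
    rw [h2] at h1
    have h3 : |t x - t y| ≤ |t y - t x - t (x⁻¹ * y)| + |t (x⁻¹ * y)| := by
      have h4 := abs_add_le (t y - t x - t (x⁻¹ * y)) (t (x⁻¹ * y))
      have h5 : t y - t x - t (x⁻¹ * y) + t (x⁻¹ * y) = t y - t x := by ring
      rw [h5, abs_sub_comm] at h4
      exact h4
    simp only [NNReal.coe_one, one_mul]
    linarith
  have hge : ∀ h : H → ℝ, h 1 = 0 → (∀ n : ℕ, h (tr ^ n) = - (n / 4)) → 1 ≤ lipConst h := by
    intro h h1 hn
    unfold lipConst
    refine le_iInf₂ ?_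
    intro K hK
    rw [hlip] at hK
    have := lip_ge_one h h1 hn K hK
    exact_mod_cast this
  have ht_tr_pow : ∀ n : ℕ, t (tr ^ n) = - (n / 4) := by
    intro n
    rw [t_pow, t_tr]; ring
  refine ⟨H, metric C hC, 1, H, inferInstance, inferInstance, hiso, t, ⟨t_one, 1, hlip1⟩, ?_, ?_, ?_⟩
  · apply le_antisymm
    · exact iInf₂_le_of_le 1 hlip1 (by simp)
    · exact hge t t_one ht_tr_pow
  · intro g
    unfold lipConst
    have hε' : ENNReal.ofReal ε = ((Real.toNNReal ε : NNReal) : ENNReal) := rfl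
    rw [hε']
    refine iInf₂_le_of_le (Real.toNNReal ε) ?_ le_rfl
    rw [hlip]
    intro x y
    by_cases hxy : x = y
    · subst hxy; simp [dst_self]
    rw [dst_of_ne C hxy, Real.coe_toNNReal ε hε.le]
    have h1 := t_mul g⁻¹ x
    have h2 := t_mul g⁻¹ y
    simp only [Pi.sub_apply, act, smul_eq_mul, mul_one]
    have h3 : |t (g⁻¹ * x) - t g⁻¹ - t x - (t (g⁻¹ * y) - t g⁻¹ - t y)| ≤ 8 := by
      have := abs_sub (t (g⁻¹ * x) - t g⁻¹ - t x) (t (g⁻¹ * y) - t g⁻¹ - t y)
      linarith
    have h4 : 0 ≤ ε * |t (x⁻¹ * y)| := by positivity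
    calc _ ≤ (8 : ℝ) := h3
      _ ≤ _ := by rw [mul_add]; linarith
  · intro f' hf' hinv
    obtain ⟨h0, K, hK⟩ := hf'
    rw [hlip] at hK
    have hmul : ∀ x y : H, f' (x * y) = f' x + f' y := by
      intro x y
      have := congrFun (hinv x⁻¹) y
      simp only [act, inv_inv, smul_eq_mul, mul_one] at this
      linarith
    have hbd : ∀ x, |f' x| ≤ K * (|t x| + C) := by
      intro x
      by_cases hx : x = 1
      · rw [hx, h0, abs_zero]
        have : 0 ≤ |t 1| + C := by positivity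
        positivity
      · have h1 := hK x 1
        rw [h0, sub_zero, dst_of_ne C hx, mul_one, t_inv, abs_neg] at h1
        exact h1
    have hz1 := hom_zero_of_t_zero f' hmul K C hbd sq t_sq
    have hz2 := hom_zero_of_t_zero f' hmul K C hbd (sq⁻¹ * tr) t_sq_inv_tr
    have hz3 : f' tr = 0 := by
      have : tr = sq * (sq⁻¹ * tr) := by group
      rw [this, hmul, hz1, hz2]; ring
    have hz4 : ∀ n : ℕ, f' (tr ^ n) = 0 := by
      intro n
      induction n with
      | zero => simpa using h0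
      | succ n ih => rw [pow_succ, hmul, ih, hz3]; ring
    apply hge
    · simp [t_one, h0]
    · intro n
      simp [ht_tr_pow, hz4]

end Pool.Agent.Results.MP_35e3b8_an.QuasimorphismCounterexample
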